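import Pool.Agent.Y782.SA.Stm

/-!
# Weyl type lower bound for the min-max values (project SA, `S_CNT`)
-/

set_option autoImplicit false

open MeasureTheory Set Filter Topology

namespace Pool.Agent.Y297SA
open Pool.Agent.Y782.SA

section

variable {E : Type} [NormedAddCommGroup E] [InnerProductSpace ℝ E]

theorem int_nsq {f : ℝ → E} (hf : IsTest f) : Integrable (fun x => ‖f x‖ ^ 2) := by
  apply Continuous.integrable_of_hasCompactSupport
  · have := hf.1.continuous
    fun_prop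
  · exact hf.2.comp_left (g := fun v : E => ‖v‖ ^ 2) (by simp)

theorem int_xsq {f : ℝ → E} (hf : IsTest f) : Integrable (fun x => x * ‖f x‖ ^ 2) := by
  apply Continuous.integrable_of_hasCompactSupport
  · have := hf.1.continuous
    fun_prop
  · exact (hf.2.comp_left (g := fun v : E => ‖v‖ ^ 2) (by simp)).mul_left

theorem tail {f : ℝ → E} (hf : IsTest f) {R : ℝ} (hR : 0 < R) :
    R * (nsq f - ∫ x in Ioc (0 : ℝ) R, ‖f x‖ ^ 2) ≤ xsq f := by
  have h1 : nsq f = (∫ x in Ioc (0 : ℝ) R, ‖f x‖ ^ 2) + ∫ x in Ioi R, ‖f x‖ ^ 2 := by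
    unfold nsq
    rw [← Ioc_union_Ioi_eq_Ioi hR.le, setIntegral_union (Ioc_disjoint_Ioi le_rfl) measurableSet_Ioi
      (int_nsq hf).integrableOn (int_nsq hf).integrableOn]
  have h2 : xsq f = (∫ x in Ioc (0 : ℝ) R, x * ‖f x‖ ^ 2) + ∫ x in Ioi R, x * ‖f x‖ ^ 2 := by
    unfold xsq
    rw [← Ioc_union_Ioi_eq_Ioi hR.le, setIntegral_union (Ioc_disjoint_Ioi le_rfl) measurableSet_Ioi
      (int_xsq hf).integrableOn (int_xsq hf).integrableOn]
  have h3 : 0 ≤ ∫ x in Ioc (0 : ℝ) R, x * ‖f x‖ ^ 2 :=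
    setIntegral_nonneg measurableSet_Ioc fun x hx => mul_nonneg hx.1.le (by positivity)
  have h4 : R * ∫ x in Ioi R, ‖f x‖ ^ 2 ≤ ∫ x in Ioi R, x * ‖f x‖ ^ 2 := by
    rw [← integral_const_mul]
    refine setIntegral_mono_on ((int_nsq hf).integrableOn.const_mul R) (int_xsq hf).integrableOn
      measurableSet_Ioi fun x hx => ?_
    exact mul_le_mul_of_nonneg_right (le_of_lt hx) (by positivity)
  rw [h1, h2, add_sub_cancel_left]
  linarith

theorem xsq_nonneg (f : ℝ → E) : 0 ≤ xsq f :=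
  setIntegral_nonneg measurableSet_Ioi fun x hx => mul_nonneg (le_of_lt hx) (by positivity)

theorem dsq_nonneg (f : ℝ → E) : 0 ≤ dsq f :=
  setIntegral_nonneg measurableSet_Ioi fun x _ => by positivity

end

/-- the integral of the kernel -/
theorem int_kernel {κ R : ℝ} (hκ : 0 < κ) (hR : 0 < R) :
    ∫ t in (0 : ℝ)..R, 1 / Real.sqrt (κ * t + 1) = 2 / κ * (Real.sqrt (κ * R + 1) - 1) := by
  have h1 : ∀ t ∈ uIcc (0 : ℝ) R, HasDerivAt (fun t => 2 / κ * Real.sqrt (κ * t + 1))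
      (1 / Real.sqrt (κ * t + 1)) t := by
    intro t ht
    rw [uIcc_of_le hR.le] at ht
    have hpos : 0 < κ * t + 1 := by nlinarith [mul_nonneg hκ.le ht.1]
    have h2 : HasDerivAt (fun t => κ * t + 1) κ t := by
      simpa using ((hasDerivAt_id t).const_mul κ).add_const 1
    have h3 := (h2.sqrt hpos.ne').const_mul (2 / κ)
    refine h3.congr_deriv ?_
    field_simp
  rw [intervalIntegral.integral_eq_sub_of_hasDerivAt h1]
  · rw [mul_zero, zero_add, Real.sqrt_one]
    ring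
  · apply ContinuousOn.intervalIntegrable
    intro t ht
    rw [uIcc_of_le hR.le] at ht
    have hpos : 0 < κ * t + 1 := by nlinarith [mul_nonneg hκ.le ht.1]
    apply ContinuousAt.continuousWithinAt
    have : Real.sqrt (κ * t + 1) ≠ 0 := (Real.sqrt_pos.mpr hpos).ne'
    fun_prop (disch := assumption)

/-- orthonormalisation of a positive definite matrix -/
theorem exists_orth {m : ℕ} {G : Matrix (Fin m) (Fin m) ℝ} (hG : G.PosDef) :
    ∃ T : Matrix (Fin m) (Fin m) ℝ, ∀ c : Fin m → ℝ, (c ≠ 0 → T.mulVec c ≠ 0) ∧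
      qf G (T.mulVec c) = ∑ i, c i ^ 2 := by
  obtain ⟨B, hB⟩ : ∃ B : Matrix (Fin m) (Fin m) ℝ, G = B.transpose * B := by
    open scoped MatrixOrder in
    obtain ⟨B, hB⟩ := CStarAlgebra.nonneg_iff_eq_star_mul_self.mp hG.posSemidef.nonneg
    exact ⟨B, hB⟩
  have hdet : B.det ≠ 0 := by
    have h1 := hG.det_pos
    rw [hB, Matrix.det_mul, Matrix.det_transpose] at h1
    intro h
    rw [h] at h1
    simp at h1
  have hinv : B * B⁻¹ = 1 := Matrix.mul_nonsing_inv B (isUnit_iff_ne_zero.mpr hdet)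
  refine ⟨B⁻¹, fun c => ?_⟩
  have h1 : B.mulVec (B⁻¹.mulVec c) = c := by
    rw [Matrix.mulVec_mulVec, hinv, Matrix.one_mulVec]
  refine ⟨?_, ?_⟩
  · intro hc h
    rw [h, Matrix.mulVec_zero] at h1
    exact hc h1.symm
  · unfold qf
    rw [hB, ← Matrix.mulVec_mulVec, h1, Matrix.dotProduct_mulVec, Matrix.vecMul_transpose, h1]
    simp only [dotProduct, sq]

theorem cnt_core {E : Type} [NormedAddCommGroup E] [InnerProductSpace ℝ E]
    [FiniteDimensional ℝ E] (hG : S_G) {κ B : ℝ} (hκ : 0 < κ) (hB : 0 ≤ B) {m : ℕ}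
    (g : Fin m → ℝ → E) (hg : ∀ i, IsTest (g i))
    (hn : ∀ c : Fin m → ℝ, nsq (∑ i, c i • g i) = ∑ i, c i ^ 2)
    (hq : ∀ c : Fin m → ℝ, c ≠ 0 →
      dsq (∑ i, c i • g i) + κ * xsq (∑ i, c i • g i) ≤ B * ∑ i, c i ^ 2) :
    (m : ℝ) ≤ 4 * Module.finrank ℝ E / κ * (B + 1) * Real.sqrt (2 * (B + 1)) := by
  have htest : ∀ c : Fin m → ℝ, IsTest (∑ i, c i • g i) := fun c =>
    (tst E).sum_mem fun i _ => (tst E).smul_mem _ (hg i)
  have hpt : ∀ t, 0 ≤ t → (∑ i, ‖g i t‖ ^ 2) * Real.sqrt (κ * t + 1) ≤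
      Module.finrank ℝ E * (B + 1) := by
    intro t ht
    have hs : 0 < Real.sqrt (κ * t + 1) := Real.sqrt_pos.mpr (by nlinarith [mul_nonneg hκ.le ht])
    have hl : ∀ l, (∑ i, (inner ℝ (stdOrthonormalBasis ℝ E l) (g i t)) ^ 2) *
        Real.sqrt (κ * t + 1) ≤ B + 1 := by
      intro l
      obtain ⟨c, hc⟩ : ∃ c : Fin m → ℝ, c = fun i => inner ℝ (stdOrthonormalBasis ℝ E l) (g i t) :=
        ⟨_, rfl⟩
      have hci : ∀ i, inner ℝ (stdOrthonormalBasis ℝ E l) (g i t) = c i := fun i => by rw [hc]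
      simp only [hci]
      have hft : (∑ i, c i • g i) t = ∑ i, c i • g i t := by
        simp only [Finset.sum_apply, Pi.smul_apply]
      have h1 : inner ℝ (stdOrthonormalBasis ℝ E l) ((∑ i, c i • g i) t) = ∑ i, c i ^ 2 := by
        rw [hft, inner_sum]
        refine Finset.sum_congr rfl fun i _ => ?_
        rw [inner_smul_right, hci, sq]
      have h2 : ∑ i, c i ^ 2 ≤ ‖(∑ i, c i • g i) t‖ := by
        rw [← h1]
        refine (real_inner_le_norm _ _).trans ?_
        rw [OrthonormalBasis.norm_eq_one, one_mul]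
      by_cases hc0 : c = 0
      · rw [hc0]
        simp only [Pi.zero_apply, ne_eq, OfNat.ofNat_ne_zero, not_false_eq_true, zero_pow,
          Finset.sum_const_zero, zero_mul]
        linarith
      · have h3 := hG E κ (∑ i, c i • g i) t hκ.le (htest c) ht
        have h4 := hq c hc0
        have h5 := hn c
        have hQ : 0 < ∑ i, c i ^ 2 := by
          obtain ⟨j, hj⟩ := Function.ne_iff.mp hc0
          refine Finset.sum_pos' (fun i _ => sq_nonneg _) ⟨j, Finset.mem_univ _, ?_⟩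
          have hj' : c j ≠ 0 := hj
          positivity
        have h6 : (∑ i, c i ^ 2) ^ 2 * Real.sqrt (κ * t + 1) ≤
            ‖(∑ i, c i • g i) t‖ ^ 2 * Real.sqrt (κ * t + 1) :=
          mul_le_mul_of_nonneg_right (pow_le_pow_left₀ hQ.le h2 2) hs.le
        have h7 : (∑ i, c i ^ 2) * ((∑ i, c i ^ 2) * Real.sqrt (κ * t + 1)) ≤
            (∑ i, c i ^ 2) * (B + 1) := by
          calc _ = (∑ i, c i ^ 2) ^ 2 * Real.sqrt (κ * t + 1) := by ring
            _ ≤ _ := h6
            _ ≤ dsq (∑ i, c i • g i) + κ * xsq (∑ i, c i • g i) + nsq (∑ i, c i • g i) := h3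
            _ ≤ _ := by rw [h5]; linarith
        exact le_of_mul_le_mul_left h7 hQ
    have h8 : ∑ i, ‖g i t‖ ^ 2 = ∑ l, ∑ i, (inner ℝ (stdOrthonormalBasis ℝ E l) (g i t)) ^ 2 := by
      rw [Finset.sum_comm]
      refine Finset.sum_congr rfl fun i _ => ?_
      rw [← (stdOrthonormalBasis ℝ E).sum_sq_norm_inner_right (g i t)]
      refine Finset.sum_congr rfl fun l _ => ?_
      rw [Real.norm_eq_abs, sq_abs]
    rw [h8, Finset.sum_mul]
    refine (Finset.sum_le_sum fun l _ => hl l).trans (le_of_eq ?_)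
    rw [Finset.sum_const, Finset.card_univ, Fintype.card_fin, nsmul_eq_mul]
  obtain ⟨R, hR⟩ : ∃ R : ℝ, R = 2 * (B + 1) / κ := ⟨_, rfl⟩
  have hRpos : 0 < R := by rw [hR]; positivity
  have hκR : κ * R = 2 * (B + 1) := by rw [hR]; field_simp
  have hi : ∀ i, (1 / 2 : ℝ) ≤ ∫ x in Ioc (0 : ℝ) R, ‖g i x‖ ^ 2 := by
    intro i
    have e1 : ∑ j, (Pi.single i 1 : Fin m → ℝ) j • g j = g i := by
      simp [Pi.single_apply, ite_smul]
    have e2 : ∑ j, (Pi.single i 1 : Fin m → ℝ) j ^ 2 = 1 := by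
      simp [Pi.single_apply]
    have e3 : (Pi.single i 1 : Fin m → ℝ) ≠ 0 := by
      intro h
      have := congrFun h i
      simp at this
    have h1 := hn (Pi.single i 1)
    have h2 := hq (Pi.single i 1) e3
    rw [e1, e2] at h1 h2
    have h3 := tail (hg i) hRpos
    have h4 := dsq_nonneg (g i)
    rw [h1] at h3
    have h5 : κ * (R * (1 - ∫ x in Ioc (0 : ℝ) R, ‖g i x‖ ^ 2)) ≤ κ * xsq (g i) :=
      mul_le_mul_of_nonneg_left h3 hκ.le
    rw [← mul_assoc, hκR] at h5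
    by_contra h
    push Not at h
    nlinarith
  have hsum : (m : ℝ) / 2 ≤ ∫ x in Ioc (0 : ℝ) R, ∑ i, ‖g i x‖ ^ 2 := by
    rw [integral_finsetSum _ fun i _ => (int_nsq (hg i)).integrableOn]
    have := Finset.sum_le_sum fun i (_ : i ∈ (Finset.univ : Finset (Fin m))) => hi i
    rw [Finset.sum_const, Finset.card_univ, Fintype.card_fin, nsmul_eq_mul] at this
    linarith
  have hker : ∫ x in Ioc (0 : ℝ) R, ∑ i, ‖g i x‖ ^ 2 ≤
      ∫ x in Ioc (0 : ℝ) R, (Module.finrank ℝ E * (B + 1)) * (1 / Real.sqrt (κ * x + 1)) := by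
    refine setIntegral_mono_on ?_ ?_ measurableSet_Ioc fun x hx => ?_
    · exact integrable_finsetSum _ fun i _ => (int_nsq (hg i)).integrableOn
    · apply Integrable.const_mul
      apply (ContinuousOn.integrableOn_Icc ?_).mono_set Ioc_subset_Icc_self
      intro t ht
      have hpos : 0 < κ * t + 1 := by nlinarith [mul_nonneg hκ.le ht.1]
      apply ContinuousAt.continuousWithinAt
      have : Real.sqrt (κ * t + 1) ≠ 0 := (Real.sqrt_pos.mpr hpos).ne'
      fun_prop (disch := assumption)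
    · have hpos : 0 < Real.sqrt (κ * x + 1) :=
        Real.sqrt_pos.mpr (by nlinarith [mul_nonneg hκ.le hx.1.le])
      rw [mul_one_div, le_div_iff₀ hpos]
      exact hpt x hx.1.le
  have hk2 : ∫ x in Ioc (0 : ℝ) R, 1 / Real.sqrt (κ * x + 1) =
      2 / κ * (Real.sqrt (κ * R + 1) - 1) := by
    rw [← intervalIntegral.integral_of_le hRpos.le, int_kernel hκ hRpos]
  rw [integral_const_mul, hk2, hκR] at hker
  have hsq : Real.sqrt (2 * (B + 1) + 1) - 1 ≤ Real.sqrt (2 * (B + 1)) := by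
    have h1 : Real.sqrt (2 * (B + 1) + 1) ≤ Real.sqrt (2 * (B + 1)) + 1 := by
      rw [Real.sqrt_le_iff]
      refine ⟨by positivity, ?_⟩
      have := Real.sq_sqrt (show 0 ≤ 2 * (B + 1) by linarith)
      have h2 := Real.sqrt_nonneg (2 * (B + 1))
      nlinarith
    linarith
  have hfin : (Module.finrank ℝ E * (B + 1)) * (2 / κ * (Real.sqrt (2 * (B + 1) + 1) - 1)) ≤
      (Module.finrank ℝ E * (B + 1)) * (2 / κ * Real.sqrt (2 * (B + 1))) := by
    apply mul_le_mul_of_nonneg_left _ (by positivity)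
    apply mul_le_mul_of_nonneg_left hsq (by positivity)
  have e : 4 * (Module.finrank ℝ E : ℝ) / κ * (B + 1) * Real.sqrt (2 * (B + 1)) =
      2 * ((Module.finrank ℝ E * (B + 1)) * (2 / κ * Real.sqrt (2 * (B + 1)))) := by ring
  rw [e]
  linarith

theorem cnt (hBASE : S_BASE) (hG : S_G) : S_CNT := by
  intro E _ _ _ _ κ C S W hκ hC hW hLB U hU k s hs
  obtain ⟨φ, hφU, hφ⟩ := hs
  have hφt : ∀ i, IsTest (φ i) := fun i => hU (hφU i)
  have hbase := hBASE E κ 0 W (by intro u v; simp) hW (k + 1) φ hφt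
  obtain ⟨_, _, _, hqG, hsys⟩ := hbase
  have hPD := (hsys ⟨hφt, fun c hc => (hφ c hc).1⟩).1
  obtain ⟨T, hT⟩ := exists_orth hPD
  have key : ∀ c : Fin (k + 1) → ℝ, c ≠ 0 → dsq (∑ i, c i • φ i) + κ * xsq (∑ i, c i • φ i) ≤
      2 * (s + C) * nsq (∑ i, c i • φ i) := by
    intro c hc
    have h1 := hLB _ ((tst E).sum_mem (t := Finset.univ)
      fun i _ => (tst E).smul_mem (c i) (hφt i))
    have h2 := (hφ c hc).2
    linarith
  have hB : 0 ≤ 2 * (s + C) := by
    have hc : (fun _ => 1 : Fin (k + 1) → ℝ) ≠ 0 := by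
      intro h
      have := congrFun h 0
      simp at this
    have h1 := key _ hc
    have h2 := (hφ _ hc).1
    have h3 := dsq_nonneg (∑ i, (fun _ => 1 : Fin (k + 1) → ℝ) i • φ i)
    have h4 := mul_nonneg hκ.le (xsq_nonneg (∑ i, (fun _ => 1 : Fin (k + 1) → ℝ) i • φ i))
    by_contra h
    push Not at h
    have := mul_neg_of_neg_of_pos h h2
    linarith
  have hsum : ∀ c : Fin (k + 1) → ℝ, ∑ i, c i • (∑ j, T j i • φ j) =
      ∑ j, (T.mulVec c) j • φ j := by
    intro c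
    simp only [Finset.smul_sum, smul_smul, Matrix.mulVec, dotProduct, Finset.sum_smul]
    rw [Finset.sum_comm]
    refine Finset.sum_congr rfl fun j _ => Finset.sum_congr rfl fun i _ => ?_
    rw [mul_comm]
  have hcore := cnt_core hG hκ hB (fun i => ∑ j, T j i • φ j)
    (fun i => (tst E).sum_mem fun j _ => (tst E).smul_mem _ (hφt j))
    (fun c => by rw [hsum, ← hqG, (hT c).2])
    (fun c hc => by
      rw [hsum, ← (hT c).2, hqG]
      exact key _ ((hT c).1 hc))
  have hd : 0 < (Module.finrank ℝ E : ℝ) := by exact_mod_cast Module.finrank_pos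
  obtain ⟨u, hu⟩ : ∃ u, u = s + C + 1 := ⟨_, rfl⟩
  have hu1 : 1 ≤ u := by rw [hu]; linarith
  have hs1 : Real.sqrt (2 * (2 * (s + C) + 1)) ≤ 2 * Real.sqrt u := by
    rw [Real.sqrt_le_iff]
    refine ⟨by positivity, ?_⟩
    rw [mul_pow, Real.sq_sqrt (by linarith), hu]
    linarith
  have h3 : κ * ((k : ℝ) + 1) / (24 * Module.finrank ℝ E) ≤ u * Real.sqrt u := by
    rw [div_le_iff₀ (by positivity)]
    have h4 : ((k + 1 : ℕ) : ℝ) ≤ 4 * Module.finrank ℝ E / κ * (2 * u) * (2 * Real.sqrt u) := by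
      refine hcore.trans ?_
      apply mul_le_mul _ hs1 (Real.sqrt_nonneg _) (by positivity)
      apply mul_le_mul_of_nonneg_left _ (by positivity)
      rw [hu]
      linarith
    have h5 := mul_le_mul_of_nonneg_left h4 hκ.le
    have h6 : κ * (4 * Module.finrank ℝ E / κ * (2 * u) * (2 * Real.sqrt u)) =
        16 * (u * Real.sqrt u * Module.finrank ℝ E) := by
      field_simp
      ring
    rw [h6] at h5
    push_cast at h5
    have h7 : 0 ≤ u * Real.sqrt u * Module.finrank ℝ E := by positivity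
    linarith
  have h8 : u * Real.sqrt u = u ^ (3 / 2 : ℝ) := by
    rw [Real.sqrt_eq_rpow]
    nth_rw 1 [← Real.rpow_one u]
    rw [← Real.rpow_add (by linarith)]
    norm_num
  rw [h8] at h3
  have h9 := Real.rpow_le_rpow (by positivity) h3 (show (0 : ℝ) ≤ 2 / 3 by norm_num)
  rw [← Real.rpow_mul (by linarith), show (3 / 2 : ℝ) * (2 / 3) = 1 by norm_num,
    Real.rpow_one] at h9
  rw [hu] at h9
  linarith

end Pool.Agent.Y297SA
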